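import Mathlib

/-!
# Common zeros of forms which do not meet a hyperplane are rational
-/

set_option autoImplicit false

namespace Pool.Agent.Helper51.CY

open MvPolynomial

variable {k Ω : Type} [Field k] [Field Ω] [Algebra k Ω]

/-- The span of the monomials of degree `m` at the point `z`. -/
private noncomputable def bpV (k : Type) [Field k] {Ω : Type} [Field Ω] [Algebra k Ω] (z : Fin 4 → Ω)
    (m : ℕ) : Submodule k Ω :=
  Submodule.span k ((fun a : Fin 4 → ℕ => ∏ i, z i ^ a i) '' {a | ∑ i, a i = m})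

private theorem bpV_mem (z : Fin 4 → Ω) (a : Fin 4 → ℕ) : ∏ i, z i ^ a i ∈ bpV k z (∑ i, a i) :=
  Submodule.subset_span ⟨a, rfl, rfl⟩

private theorem bpV_mul (z : Fin 4 → Ω) (a : Fin 4 → ℕ) {m : ℕ} {v : Ω} (hv : v ∈ bpV k z m) :
    (∏ i, z i ^ a i) * v ∈ bpV k z ((∑ i, a i) + m) := by
  unfold bpV at hv
  induction hv using Submodule.span_induction with
  | mem v hv =>
    obtain ⟨b, hb, rfl⟩ := hv
    have h1 := bpV_mem (k := k) z (a + b)
    have h2 : ∑ i, (a + b) i = (∑ i, a i) + m := by
      have hb' : ∑ i, b i = m := hb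
      simp only [Pi.add_apply, Finset.sum_add_distrib, hb']
    rw [h2] at h1
    have h3 : ∏ i, z i ^ (a + b) i = (∏ i, z i ^ a i) * ∏ i, z i ^ b i := by
      simp only [Pi.add_apply, pow_add, Finset.prod_mul_distrib]
    rw [h3] at h1
    exact h1
  | zero => rw [mul_zero]; exact zero_mem _
  | add x y _ _ h1 h2 => rw [mul_add]; exact add_mem h1 h2
  | smul r x _ h1 => rw [mul_smul_comm]; exact Submodule.smul_mem _ r h1

private theorem bpV_fg (z : Fin 4 → Ω) (m : ℕ) : (bpV k z m).FG := by
  unfold bpV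
  refine Submodule.fg_span (Set.Finite.image _ ?_)
  refine (Finset.piAntidiag (Finset.univ : Finset (Fin 4)) m).finite_toSet.subset ?_
  intro a ha
  rw [Finset.mem_coe, Finset.mem_piAntidiag]
  exact ⟨ha, fun i _ => Finset.mem_univ i⟩

/-- The homomorphism to the polynomials in one variable. -/
private noncomputable def bpF (k : Type) [Field k] {Ω : Type} [Field Ω] [Algebra k Ω] (z : Fin 4 → Ω) :
    MvPolynomial (Fin 4) k →ₐ[k] Polynomial Ω :=
  aeval fun j => Polynomial.C (z j) * Polynomial.X

private theorem bpF_coeff (z : Fin 4 → Ω) (b : MvPolynomial (Fin 4) k) (m : ℕ) :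
    (bpF k z b).coeff m ∈ bpV k z m := by
  induction b using MvPolynomial.induction_on' with
  | monomial u r =>
    have h1 : bpF k z (monomial u r) =
        Polynomial.C (algebraMap k Ω r * ∏ i, z i ^ u i) * Polynomial.X ^ (∑ i, u i) := by
      unfold bpF
      rw [aeval_monomial, Finsupp.prod_fintype _ _ (fun i => pow_zero _)]
      simp only [mul_pow, Finset.prod_mul_distrib, Finset.prod_pow_eq_pow_sum]
      rw [Polynomial.C_mul, map_prod, mul_assoc]
      simp only [Polynomial.C_pow]
      rfl
    rw [h1, Polynomial.coeff_C_mul_X_pow]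
    split_ifs with h
    · rw [← Algebra.smul_def, h]
      exact Submodule.smul_mem _ _ (bpV_mem z u)
    · exact zero_mem _
  | add p q hp hq => rw [map_add, Polynomial.coeff_add]; exact add_mem hp hq

private theorem bpF_form (z : Fin 4 → Ω) {H : MvPolynomial (Fin 4) k} {d : ℕ}
    (hH : H.IsHomogeneous d) : bpF k z H = Polynomial.C (aeval z H) * Polynomial.X ^ d := by
  unfold bpF
  rw [aeval_def, eval₂_eq', aeval_def, eval₂_eq', map_sum, Finset.sum_mul]
  refine Finset.sum_congr rfl fun u hu => ?_
  have h1 : ∑ i, u i = d := by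
    have h2 := hH (mem_support_iff.1 hu)
    rw [Finsupp.weight_apply, Finsupp.sum_fintype _ _ (fun i => by simp)] at h2
    simpa using h2
  simp only [mul_pow, Finset.prod_mul_distrib, Finset.prod_pow_eq_pow_sum, h1]
  rw [Polynomial.C_mul, map_prod, mul_assoc]
  simp only [Polynomial.C_pow]
  rfl

/-- A point where finitely many forms vanish is rational over the algebraically closed field
`k` of the coefficients, up to a factor, if their common zero set over `k` does not meet the
hyperplane `z 3 = 0`. -/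
theorem bad_point {k Ω : Type} [Field k] [IsAlgClosed k] [Field Ω] [Algebra k Ω] {ι : Type}
    (H : ι → MvPolynomial (Fin 4) k) {d : ℕ} (hH : ∀ i, (H i).IsHomogeneous d)
    (hbad : ∀ z : Fin 4 → k, (∀ i, eval z (H i) = 0) → z 3 = 0 → z = 0)
    (x : Fin 4 → Ω) (hx : x ≠ 0) (h : ∀ i, aeval x (H i) = 0) :
    ∃ (l : Ω) (z : Fin 4 → k), ∀ j, x j = l * algebraMap k Ω (z j) := by
  -- Nullstellensatz
  have h1 : ∀ j : Fin 4, ∃ N : ℕ, (X j : MvPolynomial (Fin 4) k) ^ N ∈
      Ideal.span (Set.range H) ⊔ Ideal.span {(X 3 : MvPolynomial (Fin 4) k)} := by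
    intro j
    have h2 : (X j : MvPolynomial (Fin 4) k) ∈
        (Ideal.span (Set.range H) ⊔ Ideal.span {(X 3 : MvPolynomial (Fin 4) k)}).radical := by
      rw [← vanishingIdeal_zeroLocus_eq_radical (K := k), mem_vanishingIdeal_iff]
      intro z hz
      rw [mem_zeroLocus_iff] at hz
      have h3 : ∀ i, eval z (H i) = 0 := fun i => by
        have := hz (H i) (Ideal.mem_sup_left (Ideal.subset_span ⟨i, rfl⟩))
        rwa [← MvPolynomial.coe_aeval_eq_eval]
      have h4 : z 3 = 0 := by
        have := hz (X 3) (Ideal.mem_sup_right (Ideal.subset_span rfl))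
        simpa using this
      rw [aeval_X, hbad z h3 h4]
      rfl
    exact h2
  choose Nf hN using h1
  obtain ⟨N, hN1, hNN⟩ : ∃ N : ℕ, 1 ≤ N ∧ ∀ j : Fin 4, (X j : MvPolynomial (Fin 4) k) ^ N ∈
      Ideal.span (Set.range H) ⊔ Ideal.span {(X 3 : MvPolynomial (Fin 4) k)} := by
    refine ⟨∑ j, Nf j + 1, by omega, fun j => ?_⟩
    have h2 : Nf j ≤ ∑ j, Nf j + 1 := by
      have := Finset.single_le_sum (f := Nf) (fun i _ => Nat.zero_le _) (Finset.mem_univ j)
      omega
    exact Ideal.mem_of_dvd _ (pow_dvd_pow _ h2) (hN j)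
  have hdec : ∀ j : Fin 4, ∃ s b : MvPolynomial (Fin 4) k, s ∈ Ideal.span (Set.range H) ∧
      (X j : MvPolynomial (Fin 4) k) ^ N = s + b * X 3 := by
    intro j
    obtain ⟨s, hs, t, ht, hst⟩ := Submodule.mem_sup.1 (hNN j)
    obtain ⟨b, hb⟩ := Ideal.mem_span_singleton'.1 ht
    exact ⟨s, b, hs, by rw [hb, hst]⟩
  -- the last coordinate is not zero
  have hx3 : x 3 ≠ 0 := by
    intro h3
    apply hx
    funext j
    obtain ⟨s, b, hs, hsb⟩ := hdec j
    have h4 : aeval x s = 0 := by
      have h5 : Ideal.span (Set.range H) ≤ RingHom.ker (aeval x : MvPolynomial (Fin 4) k →ₐ[k] Ω) := by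
        rw [Ideal.span_le]
        rintro _ ⟨i, rfl⟩
        exact h i
      exact h5 hs
    have h6 := congrArg (aeval x) hsb
    rw [map_pow, map_add, map_mul, h4, aeval_X, aeval_X, h3, mul_zero, add_zero] at h6
    exact pow_eq_zero_iff (by omega) |>.1 h6
  -- the affine point
  obtain ⟨z, hz⟩ : ∃ z : Fin 4 → Ω, ∀ j, z j = (x 3)⁻¹ * x j := ⟨_, fun _ => rfl⟩
  have hz3 : z 3 = 1 := by rw [hz, inv_mul_cancel₀ hx3]
  have hHz : ∀ i, aeval z (H i) = 0 := by
    intro i
    have h5 := bpF_form (k := k) x (hH i)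
    have h6 : z = fun j => (x j) * (x 3)⁻¹ := by
      funext j
      rw [hz, mul_comm]
    have h7 := congrArg (Polynomial.eval (x 3)⁻¹) h5
    have h8 : Polynomial.eval (x 3)⁻¹ (bpF k x (H i)) = aeval z (H i) := by
      have h9 : ((Polynomial.evalRingHom (x 3)⁻¹).comp (bpF k x).toRingHom) =
          (aeval z : MvPolynomial (Fin 4) k →ₐ[k] Ω).toRingHom := by
        refine MvPolynomial.ringHom_ext (fun r => ?_) (fun j => ?_)
        · simp [bpF]
        · simp [bpF, h6]
      exact congrArg (fun f : MvPolynomial (Fin 4) k →+* Ω => f (H i)) h9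
    rw [h8, h i, map_zero, zero_mul, Polynomial.eval_zero] at h7
    exact h7
  have hkey : ∀ j, z j ^ N ∈ bpV k z (N - 1) := by
    intro j
    obtain ⟨s, b, hs, hsb⟩ := hdec j
    have h4 : bpF k z s = 0 := by
      have h5 : Ideal.span (Set.range H) ≤ RingHom.ker (bpF k z) := by
        rw [Ideal.span_le]
        rintro _ ⟨i, rfl⟩
        show bpF k z (H i) = 0
        rw [bpF_form z (hH i), hHz i, map_zero, zero_mul]
      exact h5 hs
    have h6 := congrArg (bpF k z) hsb
    rw [map_pow, map_add, map_mul, h4, zero_add] at h6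
    have h7 : ∀ j, bpF k z (X j) = Polynomial.C (z j) * Polynomial.X := fun j => by
      unfold bpF
      rw [aeval_X]
    rw [h7, h7, hz3, map_one, one_mul, mul_pow, ← Polynomial.C_pow] at h6
    have h8 := congrArg (fun f : Polynomial Ω => f.coeff (N - 1 + 1)) h6
    simp only [Polynomial.coeff_mul_X, Polynomial.coeff_C_mul_X_pow] at h8
    rw [if_pos (by omega)] at h8
    rw [h8]
    exact bpF_coeff z b _
  have hclosed : ∀ j, ∀ v ∈ bpV k z (4 * N), z j • v ∈ bpV k z (4 * N) := by
    intro j v hv
    rw [smul_eq_mul]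
    unfold bpV at hv
    induction hv using Submodule.span_induction with
    | mem v hv =>
      obtain ⟨a, ha, rfl⟩ := hv
      have ha' : ∑ i, a i = 4 * N := ha
      obtain ⟨b, hb⟩ : ∃ b : Fin 4 → ℕ, b = a + Pi.single j 1 := ⟨_, rfl⟩
      have hbs : ∑ i, b i = 4 * N + 1 := by
        rw [hb]
        simp [Finset.sum_add_distrib, ha']
      have hbm : z j * ∏ i, z i ^ a i = ∏ i, z i ^ b i := by
        rw [hb]
        simp only [Pi.add_apply, pow_add, Finset.prod_mul_distrib]
        have h9 : ∏ i, z i ^ (Pi.single j 1 : Fin 4 → ℕ) i = z j := by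
          rw [Finset.prod_eq_single j]
          · simp
          · intro i _ hi
            simp [hi]
          · intro hh
            exact absurd (Finset.mem_univ j) hh
        rw [h9, mul_comm]
      obtain ⟨i, hi⟩ : ∃ i, N ≤ b i := by
        by_contra hcon
        push Not at hcon
        have h9 := hcon 0
        have h10 := hcon 1
        have h11 := hcon 2
        have h12 := hcon 3
        rw [Fin.sum_univ_four] at hbs
        omega
      obtain ⟨c, hc⟩ : ∃ c : Fin 4 → ℕ, c = b - Pi.single i N := ⟨_, rfl⟩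
      have hbc : b = c + Pi.single i N := by
        rw [hc]
        funext l
        by_cases hl : l = i
        · subst hl
          simp only [Pi.add_apply, Pi.sub_apply, Pi.single_eq_same]
          omega
        · simp [hl]
      have hcs : (∑ l, c l) + N = 4 * N + 1 := by
        rw [← hbs, hbc]
        simp [Finset.sum_add_distrib]
      have hcm : ∏ l, z l ^ b l = (∏ l, z l ^ c l) * z i ^ N := by
        rw [hbc]
        simp only [Pi.add_apply, pow_add, Finset.prod_mul_distrib]
        congr 1
        rw [Finset.prod_eq_single i]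
        · simp
        · intro l _ hl
          simp [hl]
        · intro hh
          exact absurd (Finset.mem_univ i) hh
      show z j * ∏ i, z i ^ a i ∈ _
      rw [hbm, hcm]
      have h9 := bpV_mul z c (hkey i)
      rwa [show (∑ l, c l) + (N - 1) = 4 * N by omega] at h9
    | zero => rw [mul_zero]; exact zero_mem _
    | add x y _ _ h1 h2 => rw [mul_add]; exact add_mem h1 h2
    | smul r x _ h1 => rw [mul_smul_comm]; exact Submodule.smul_mem _ r h1
  have hne : bpV k z (4 * N) ≠ ⊥ := by
    intro hbot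
    have h9 := bpV_mem (k := k) z (Pi.single 3 (4 * N))
    have h10 : ∑ i, (Pi.single 3 (4 * N) : Fin 4 → ℕ) i = 4 * N := by simp
    have h11 : ∏ i, z i ^ (Pi.single 3 (4 * N) : Fin 4 → ℕ) i = 1 := by
      rw [Finset.prod_eq_single 3]
      · simp [hz3]
      · intro l _ hl
        simp [hl]
      · intro hh
        exact absurd (Finset.mem_univ _) hh
    rw [h10, h11, hbot, Submodule.mem_bot] at h9
    exact one_ne_zero h9
  have hint : ∀ j, IsIntegral k (z j) := fun j =>
    isIntegral_of_smul_mem_submodule (bpV k z (4 * N)) hne (bpV_fg z _) (z j) (hclosed j)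
  have hmem : ∀ j, ∃ w : k, algebraMap k Ω w = z j := fun j =>
    minpoly.mem_range_of_degree_eq_one k (z j)
      (IsAlgClosed.degree_eq_one_of_irreducible k (minpoly.irreducible (hint j)))
  choose w hw using hmem
  refine ⟨x 3, w, fun j => ?_⟩
  rw [hw, hz, ← mul_assoc, mul_inv_cancel₀ hx3, one_mul]

end Pool.Agent.Helper51.CY
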