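import Pool.Agent.Helper92.CY.Defs

/-!
The equation of `ω` over the chart and the reduction of functions to `r0 + r1 ω`.
-/

set_option autoImplicit false

namespace Pool.Agent.Helper51.CY

open MvPolynomial Pool.Agent.Helper37.RP Pool.Agent.Helper76.CY Pool.Agent.Helper92.CY

variable {K : Type} [Field K]

/-- CY-9a. The equation of `ω`. -/
theorem omx_eq (c : Ix → K) {S : Type} [CommRing S] [Algebra K S] (x y : Fin 4 → S)
    (hy : y 0 = 1) (h : OnX c x y) :
    (∀ l, aeval x (cH c 0 0) * y l = aeval x (cH c 0 l) + omx c x y *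
      N4 (fun i => aeval x (lin (fun i j => pL c j i) i))
        (fun i => aeval x (lin (fun i j => pL' c j i) i)) l 0) ∧
      aeval x (cH c 0 0) * omx c x y ^ 2 = aeval x (Px c) := by
  obtain ⟨h1, h2, h3⟩ := h
  have g1 : ∑ i, aeval x (lin (fun i j => pL c j i) i) * y i = 0 := by
    rw [← onL_iff]
    exact (onL_swap (pL c) x y).2 h1
  have g2 : ∑ i, aeval x (lin (fun i j => pL' c j i) i) * y i = 0 := by
    rw [← onL_iff]
    exact (onL_swap (pL' c) x y).2 h2
  have g3 : bil ((quad fun i j k l => pQ c k l i j).map (aeval x : _ →ₐ[K] S)) y y = 0 := by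
    rw [← onQ_iff]
    exact (onQ_swap (pQ c) x y).2 h3
  have hM : ∀ i j, ((quad fun i j k l => pQ c k l i j).map (aeval x : _ →ₐ[K] S)) i j =
      ((quad fun i j k l => pQ c k l i j).map (aeval x : _ →ₐ[K] S)) j i :=
    quad_symm _ (fun i j k l => pQ_symm' c k l i j) x
  set M := (quad fun i j k l => pQ c k l i j).map (aeval x : _ →ₐ[K] S) with hMdef
  set N := N4 (fun i => aeval x (lin (fun i j => pL c j i) i))
    (fun i => aeval x (lin (fun i j => pL' c j i) i)) with hNdef
  have hN : IsLine N y := isLine_N4 _ _ y g1 g2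
  have hcH : ∀ k l, aeval x (cH c k l) = gram M N k l := fun k l => aeval_chow4 _ _ _ x k l
  have hom : omx c x y = 2 * bil M y (fun l => N l 0) := rfl
  have hN0 : N 0 0 = 0 := by
    rw [hNdef]
    simp [N4]
  have key : ∀ l, gram M N 0 l = 2 * bil M (fun l => N l 0) (fun l => N l 0) * y l -
      omx c x y * N l 0 := by
    intro l
    have e := sq_mul_gram hM hN g3 0 0 l
    rw [hy, one_pow, one_mul] at e
    rw [e, hom]
    simp only [pr, Matrix.of_apply, other, hN0, hy]
    ring
  have key0 : gram M N 0 0 = 2 * bil M (fun l => N l 0) (fun l => N l 0) := by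
    rw [key 0, hN0, hy]
    ring
  refine ⟨fun l => ?_, ?_⟩
  · rw [hcH, hcH, key0, key l]
    ring
  · have hP : aeval x (Px c) = -2 * bil M (fun k => aeval x (cH c 0 k))
        (fun k => aeval x (cH c 0 k)) := by
      unfold Px
      rw [map_mul]
      congr 1
      · rw [map_neg, map_ofNat]
      · exact map_bil ((aeval x : MvPolynomial (Fin 4) K →ₐ[K] S) : MvPolynomial (Fin 4) K →+* S)
          _ _ _
    have hH : (fun k => aeval x (cH c 0 k)) = fun k =>
        (2 * bil M (fun l => N l 0) (fun l => N l 0)) * y k + (-omx c x y) * N k 0 := by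
      funext k
      rw [hcH, key k]
      ring
    rw [hP, hH, bil_lin, g3, hcH, key0, bil_comm hM (fun l => N l 0) y, hom]
    ring

/-- Dehomogenisation. -/
theorem aeval_deh {S : Type} [CommRing S] [Algebra K S] (x : Fin 3 → S)
    (F : MvPolynomial (Fin 4) K) : aeval x (deh F) = aeval (aff x) F := by
  unfold deh
  have e : (aeval x : MvPolynomial (Fin 3) K →ₐ[K] S).comp
      (aeval (aff X) : MvPolynomial (Fin 4) K →ₐ[K] MvPolynomial (Fin 3) K) = aeval (aff x) := by
    apply MvPolynomial.algHom_ext
    intro i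
    rw [AlgHom.comp_apply, aeval_X, aeval_X]
    refine Fin.cases ?_ (fun j => ?_) i
    · simp [aff]
    · simp [aff]
  rw [← e]
  rfl

/-- CY-9b. Every function is `r0 + r1 ω` up to a power of `cH c 0 0`. -/
theorem norm_x (c : Ix → K) (F : MvPolynomial (Fin 3 ⊕ Fin 3) K) :
    ∃ (n : ℕ) (r0 r1 : MvPolynomial (Fin 3) K), ∀ (S : Type) [CommRing S] [Algebra K S]
      (x y : Fin 3 → S), OnX c (aff x) (aff y) →
      aeval (aff x) (cH c 0 0) ^ n * aeval (Sum.elim x y) F =
        aeval x r0 + aeval x r1 * omx c (aff x) (aff y) := by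
  induction F using MvPolynomial.induction_on with
  | C a =>
    refine ⟨0, C a, 0, ?_⟩
    intro S _ _ x y _
    simp
  | add p q hp hq =>
    obtain ⟨n, r0, r1, h⟩ := hp
    obtain ⟨m, s0, s1, h'⟩ := hq
    refine ⟨n + m, deh (cH c 0 0) ^ m * r0 + deh (cH c 0 0) ^ n * s0,
      deh (cH c 0 0) ^ m * r1 + deh (cH c 0 0) ^ n * s1, ?_⟩
    intro S _ _ x y hxy
    have e1 := h S x y hxy
    have e2 := h' S x y hxy
    simp only [map_add, map_mul, map_pow, aeval_deh]
    linear_combination aeval (aff x) (cH c 0 0) ^ m * e1 + aeval (aff x) (cH c 0 0) ^ n * e2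
  | mul_X p i hp =>
    obtain ⟨n, r0, r1, h⟩ := hp
    rcases i with i | l
    · refine ⟨n, X i * r0, X i * r1, ?_⟩
      intro S _ _ x y hxy
      have e1 := h S x y hxy
      simp only [map_mul, aeval_X, Sum.elim_inl]
      linear_combination x i * e1
    · refine ⟨n + 2, deh (cH c 0 0) * r0 * deh (cH c 0 l.succ) +
          r1 * deh (N4 (lin (fun i j => pL c j i)) (lin (fun i j => pL' c j i)) l.succ 0) *
            deh (Px c),
        deh (cH c 0 0) * (r0 * deh (N4 (lin (fun i j => pL c j i))
          (lin (fun i j => pL' c j i)) l.succ 0) + r1 * deh (cH c 0 l.succ)), ?_⟩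
      intro S _ _ x y hxy
      have e1 := h S x y hxy
      obtain ⟨e2, e3⟩ := omx_eq c (aff x) (aff y) rfl hxy
      have e4 := e2 l.succ
      have e5 : aeval (aff x) (N4 (lin (fun i j => pL c j i)) (lin (fun i j => pL' c j i))
          l.succ 0) = N4 (fun i => aeval (aff x) (lin (fun i j => pL c j i) i))
            (fun i => aeval (aff x) (lin (fun i j => pL' c j i) i)) l.succ 0 := by
        have := map_N4 ((aeval (aff x) : MvPolynomial (Fin 4) K →ₐ[K] S) :
          MvPolynomial (Fin 4) K →+* S) (lin (fun i j => pL c j i)) (lin (fun i j => pL' c j i))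
        exact congrFun (congrFun this l.succ) 0
      rw [← e5] at e4
      have e6 : (aff y) l.succ = y l := by simp [aff]
      rw [e6] at e4
      simp only [map_add, map_mul, aeval_X, Sum.elim_inr, aeval_deh]
      generalize aeval (aff x) (N4 (lin (fun i j => pL c j i)) (lin (fun i j => pL' c j i))
          l.succ 0) = T at *
      generalize aeval (aff x) (cH c 0 0) = A at *
      generalize aeval (aff x) (cH c 0 l.succ) = B at *
      generalize omx c (aff x) (aff y) = w at *
      generalize aeval (aff x) (Px c) = P at *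
      generalize aeval (Sum.elim x y) p = f at *
      generalize aeval x r0 = a0 at *
      generalize aeval x r1 = a1 at *
      linear_combination (A * (B + w * T)) * e1 + (A ^ (n + 1) * f) * e4 + (a1 * T) * e3

end Pool.Agent.Helper51.CY
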