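import Pool.Agent.Helper76.CY.Lin

/-!
CY-5a: a form vanishing on a linear recurrent orbit vanishes on its span.
-/

namespace Pool.Agent.Helper51.CY

open MvPolynomial Pool.Agent.Helper76.CY

lemma eval_aeval' {M ι κ : Type*} [CommRing M] (x : κ → M) (L : ι → MvPolynomial κ M)
    (g : MvPolynomial ι M) :
    eval x (aeval L g) = eval (fun q => eval x (L q)) g := by
  induction g using MvPolynomial.induction_on with
  | C a => simp
  | add p q hp hq => rw [map_add, map_add, map_add, hp, hq]
  | mul_X p i hp => rw [map_mul, map_mul, map_mul, hp, aeval_X, eval_X]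

lemma eval₂_hom {K M ι : Type*} [CommRing K] [CommRing M] (φ : K →+* M) (x : ι → K)
    (g : MvPolynomial ι K) : eval₂ φ (fun q => φ (x q)) g = φ (eval x g) := by
  induction g using MvPolynomial.induction_on with
  | C a => simp
  | add p q hp hq => rw [eval₂_add, map_add, map_add, hp, hq]
  | mul_X p i hp => rw [eval₂_mul, map_mul, map_mul, hp, eval₂_X, eval_X]

lemma map_aeval' {K M ι κ : Type*} [CommRing K] [CommRing M] (φ : K →+* M)
    (A : ι → MvPolynomial κ K) (L : ι → MvPolynomial κ M)
    (S : κ → MvPolynomial κ M) (h : ∀ q, MvPolynomial.map φ (A q) = aeval S (L q))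
    (g : MvPolynomial ι K) :
    MvPolynomial.map φ (aeval A g) = aeval S (aeval L (MvPolynomial.map φ g)) := by
  induction g using MvPolynomial.induction_on with
  | C a => simp [algebraMap_eq]
  | add p q hp hq => simp only [map_add, hp, hq]
  | mul_X p i hp => simp only [map_mul, hp, aeval_X, map_X, h]

theorem orbit_form_of {K M ι : Type*} [Field K] [Field M] [Algebra K M]
    (recurrence_sum : ∀ (χ : Polynomial M), χ.natDegree = 11 →
      ∀ (μ : Fin 11 → M), Function.Injective μ → (∀ i, Polynomial.eval (μ i) χ = 0) →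
      ∀ (v : ℕ → ι → M), (∀ n q, ∑ i ∈ Finset.range 12, χ.coeff i * v (n + i) q = 0) →
      ∃ w : Fin 11 → ι → M, ∀ n q, v n q = ∑ i, μ i ^ n * w i q)
    (form_zero : ∀ (μ : Fin 11 → M),
      (∀ a b : Fin 11 → ℕ, ∑ i, a i = ∑ i, b i → ∏ i, μ i ^ a i = ∏ i, μ i ^ b i → a = b) →
      ∀ (G : MvPolynomial (Fin 11) M) (d : ℕ), G.IsHomogeneous d →
      (∀ n : ℕ, eval (fun i => μ i ^ n) G = 0) → G = 0)
    (χ : Polynomial K)
    (hdeg : χ.natDegree = 11) (μ : Fin 11 → M) (hμ : Function.Injective μ)
    (hroot : ∀ i, Polynomial.aeval (μ i) χ = 0)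
    (hind : ∀ a b : Fin 11 → ℕ, ∑ i, a i = ∑ i, b i → ∏ i, μ i ^ a i = ∏ i, μ i ^ b i → a = b)
    (τ : ℕ → ι → K)
    (hrec : ∀ n q, ∑ i ∈ Finset.range 12, χ.coeff i * τ (n + i) q = 0)
    (f : MvPolynomial ι K) (d : ℕ) (hf : f.IsHomogeneous d) (hv : ∀ n, eval (τ n) f = 0) :
    aeval (fun q => ∑ i : Fin 11, C (τ i q) * X i : ι → MvPolynomial (Fin 11) K) f = 0 := by
  set φ : K →+* M := algebraMap K M with hφ
  obtain ⟨w, hw⟩ := recurrence_sum (χ.map φ)
    (by rw [Polynomial.natDegree_map_eq_of_injective φ.injective, hdeg]) μ hμ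
    (fun i => by
      rw [Polynomial.eval_map, hφ]
      exact hroot i)
    (fun n q => φ (τ n q))
    (fun n q => by
      have h := congrArg φ (hrec n q)
      rw [map_sum, map_zero] at h
      rw [← h]
      refine Finset.sum_congr rfl fun i _ => ?_
      rw [Polynomial.coeff_map, map_mul])
  set L : ι → MvPolynomial (Fin 11) M := fun q => ∑ i : Fin 11, C (w i q) * X i with hL
  have hLh : ∀ q, (L q).IsHomogeneous 1 := by
    intro q
    refine IsHomogeneous.sum _ _ _ fun i _ => ?_
    have := (isHomogeneous_C (Fin 11) (w i q)).mul (isHomogeneous_X M i)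
    simpa using this
  have hG : (aeval L (map φ f)) = 0 := by
    refine form_zero μ hind _ (1 * d) ((hf.map φ).aeval L hLh) fun n => ?_
    have h1 : eval (fun i => μ i ^ n) (aeval L (map φ f))
        = eval (fun q => eval (fun i => μ i ^ n) (L q)) (map φ f) := eval_aeval' _ _ _
    have h2 : (fun q => eval (fun i => μ i ^ n) (L q)) = fun q => φ (τ n q) := by
      funext q
      rw [hw, hL]
      simp only [map_sum, map_mul, eval_C, eval_X]
      exact Finset.sum_congr rfl fun i _ => mul_comm _ _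
    rw [h1, h2, eval_map]
    have h3 : eval₂ φ (fun q => φ (τ n q)) f = φ (eval (τ n) f) := eval₂_hom _ _ _
    rw [h3, hv, map_zero]
  apply map_injective φ φ.injective
  rw [map_zero]
  set S : Fin 11 → MvPolynomial (Fin 11) M := fun k => ∑ i : Fin 11, C (μ k ^ (i : ℕ)) * X i
    with hS
  have h4 : ∀ q, map φ (∑ i : Fin 11, C (τ i q) * X i) = aeval S (L q) := by
    intro q
    rw [hL]
    simp only [map_sum, map_mul, map_C, map_X, aeval_X, algHom_C, hS]
    simp only [hw, map_sum, map_mul, Finset.sum_mul, Finset.mul_sum]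
    rw [Finset.sum_comm]
    refine Finset.sum_congr rfl fun k _ => Finset.sum_congr rfl fun i _ => ?_
    simp only [algebraMap_eq]
    ring
  have h5 : map φ (aeval (fun q => ∑ i : Fin 11, C (τ i q) * X i :
      ι → MvPolynomial (Fin 11) K) f) = aeval S (aeval L (map φ f)) :=
    map_aeval' φ _ L S h4 f
  rw [h5, hG, map_zero]

end Pool.Agent.Helper51.CY
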